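import Pool.Agent.Helper36.Sq.Goals

/-!
# Project SQ (MP_b9cb57_an): packet SEL
-/

set_option autoImplicit false

open Finset

namespace Pool.Agent.Helper25.Sq

open Pool.Agent.Helper36.Sq

universe u v

private theorem depChoice {S : Type u} (P : ℕ → S → Prop) (R : ℕ → S → S → Prop) (s0 : S)
    (h0 : P 0 s0) (hstep : ∀ c s, P c s → ∃ s', P (c + 1) s' ∧ R c s s') :
    ∃ w : ℕ → S, w 0 = s0 ∧ (∀ c, P c (w c)) ∧ ∀ c, R c (w c) (w (c + 1)) := by
  classical
  choose! nx h1 h2 using hstep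
  let w : ℕ → S := fun n => Nat.rec s0 (fun c s => nx c s) n
  have hP : ∀ c, P c (w c) := by
    intro c
    induction c with
    | zero => exact h0
    | succ c ih => exact h1 c _ ih
  exact ⟨w, rfl, hP, fun c => h2 c _ (hP c)⟩

/-- The conditional probability of a monochromatic window. -/
noncomputable def Pf (l : ℕ → ℕ) (τ : Fin 3) (k : ℕ) (w : ℕ → Fin 3) (j : ℕ) : ℝ :=
  ∏ i ∈ Ico j (j + l j), (if i < k then (if w i = τ then (1 : ℝ) else 0) else 1 / 4)

theorem Pf_nonneg (l : ℕ → ℕ) (τ : Fin 3) (k : ℕ) (w : ℕ → Fin 3) (j : ℕ) :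
    0 ≤ Pf l τ k w j := by
  apply Finset.prod_nonneg
  intro i _
  split_ifs <;> norm_num

theorem Pf_le (l : ℕ → ℕ) (τ : Fin 3) (k : ℕ) (w : ℕ → Fin 3) (j : ℕ) :
    Pf l τ k w j ≤ 4 ^ k * (1 / 4) ^ l j := by
  have h1 : Pf l τ k w j ≤ ∏ i ∈ Ico j (j + l j), ((if i < k then (4 : ℝ) else 1) * (1 / 4)) := by
    apply Finset.prod_le_prod
    · intro i _
      split_ifs <;> norm_num
    · intro i _
      split_ifs <;> norm_num
  refine h1.trans ?_
  rw [Finset.prod_mul_distrib, Finset.prod_const, Nat.card_Ico, Nat.add_sub_cancel_left]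
  apply mul_le_mul_of_nonneg_right _ (by positivity)
  rw [← Finset.prod_filter_mul_prod_filter_not (Ico j (j + l j)) (fun i => i < k)]
  have h2 : ∏ x ∈ (Ico j (j + l j)).filter (fun i => i < k), (if x < k then (4 : ℝ) else 1)
      = 4 ^ ((Ico j (j + l j)).filter (fun i => i < k)).card := by
    rw [← Finset.prod_const]
    apply Finset.prod_congr rfl
    intro x hx
    rw [if_pos (Finset.mem_filter.mp hx).2]
  have h3 : ∏ x ∈ (Ico j (j + l j)).filter (fun i => ¬ i < k), (if x < k then (4 : ℝ) else 1)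
      = 1 := by
    apply Finset.prod_eq_one
    intro x hx
    rw [if_neg (Finset.mem_filter.mp hx).2]
  rw [h2, h3, mul_one]
  apply pow_le_pow_right₀ (by norm_num)
  calc ((Ico j (j + l j)).filter (fun i => i < k)).card ≤ (range k).card := by
        apply Finset.card_le_card
        intro x hx
        exact Finset.mem_range.mpr (Finset.mem_filter.mp hx).2
    _ = k := Finset.card_range k

theorem Pf_summable {l : ℕ → ℕ} (hl : Summable (fun j => (1 / 4 : ℝ) ^ l j)) (τ : Fin 3) (k : ℕ)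
    (w : ℕ → Fin 3) : Summable (Pf l τ k w) :=
  Summable.of_nonneg_of_le (Pf_nonneg l τ k w) (Pf_le l τ k w) (hl.mul_left _)

/-- The mean over the next letter. -/
theorem Pf_step (l : ℕ → ℕ) (τ : Fin 3) (hτ : τ = 0 ∨ τ = 2) (k : ℕ) (w : ℕ → Fin 3) (j : ℕ) :
    Pf l τ (k + 1) (Function.update w k 0) j / 4 + Pf l τ (k + 1) (Function.update w k 1) j / 2 +
      Pf l τ (k + 1) (Function.update w k 2) j / 4 = Pf l τ k w j := by
  by_cases hk : k ∈ Ico j (j + l j)
  · have h1 : ∀ c : Fin 3, Pf l τ (k + 1) (Function.update w k c) j =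
        (if c = τ then (1 : ℝ) else 0) *
          ∏ i ∈ (Ico j (j + l j)).erase k,
            (if i < k then (if w i = τ then (1 : ℝ) else 0) else 1 / 4) := by
      intro c
      unfold Pf
      rw [← Finset.mul_prod_erase _ _ hk]
      congr 1
      · rw [if_pos (Nat.lt_succ_self k), Function.update_self]
      · apply Finset.prod_congr rfl
        intro i hi
        have hik : i ≠ k := (Finset.mem_erase.mp hi).1
        rw [Function.update_of_ne hik]
        have : (i < k + 1) ↔ i < k := by omega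
        simp only [this]
    have h2 : Pf l τ k w j = (1 / 4) * ∏ i ∈ (Ico j (j + l j)).erase k,
            (if i < k then (if w i = τ then (1 : ℝ) else 0) else 1 / 4) := by
      unfold Pf
      rw [← Finset.mul_prod_erase _ _ hk]
      congr 1
      rw [if_neg (lt_irrefl k)]
    rw [h1, h1, h1, h2]
    rcases hτ with rfl | rfl
    · rw [if_pos rfl, if_neg (by decide), if_neg (by decide)]
      ring
    · rw [if_pos rfl, if_neg (by decide), if_neg (by decide)]
      ring
  · have h1 : ∀ c : Fin 3, Pf l τ (k + 1) (Function.update w k c) j = Pf l τ k w j := by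
      intro c
      unfold Pf
      apply Finset.prod_congr rfl
      intro i hi
      have hik : i ≠ k := fun h => hk (h ▸ hi)
      rw [Function.update_of_ne hik]
      have : (i < k + 1) ↔ i < k := by omega
      simp only [this]
    rw [h1, h1, h1]
    ring

/-- The sum of the conditional probabilities of the bad events. -/
noncomputable def Bs (l : ℕ → ℕ) (k : ℕ) (w : ℕ → Fin 3) : ℝ :=
  ∑' j, (Pf l 0 k w j + Pf l 2 k w j)

theorem Bs_summable {l : ℕ → ℕ} (hl : Summable (fun j => (1 / 4 : ℝ) ^ l j)) (k : ℕ)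
    (w : ℕ → Fin 3) : Summable (fun j => Pf l 0 k w j + Pf l 2 k w j) :=
  (Pf_summable hl 0 k w).add (Pf_summable hl 2 k w)

theorem Bs_nonneg (l : ℕ → ℕ) (k : ℕ) (w : ℕ → Fin 3) : 0 ≤ Bs l k w :=
  tsum_nonneg fun j => add_nonneg (Pf_nonneg l 0 k w j) (Pf_nonneg l 2 k w j)

theorem Bs_zero (l : ℕ → ℕ) (w : ℕ → Fin 3) :
    Bs l 0 w = 2 * ∑' j, (1 / 4 : ℝ) ^ l j := by
  unfold Bs
  rw [← tsum_mul_left]
  congr 1
  funext j
  have h1 : ∀ τ : Fin 3, Pf l τ 0 w j = (1 / 4) ^ l j := by
    intro τ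
    unfold Pf
    have : ∀ i ∈ Ico j (j + l j),
        (if i < 0 then (if w i = τ then (1 : ℝ) else 0) else 1 / 4) = 1 / 4 := by
      intro i _
      rw [if_neg (Nat.not_lt_zero i)]
    rw [Finset.prod_congr rfl this, Finset.prod_const, Nat.card_Ico, Nat.add_sub_cancel_left]
  rw [h1, h1]
  ring

theorem Bs_step {l : ℕ → ℕ} (hl : Summable (fun j => (1 / 4 : ℝ) ^ l j)) (k : ℕ)
    (w : ℕ → Fin 3) :
    Bs l (k + 1) (Function.update w k 0) / 4 + Bs l (k + 1) (Function.update w k 1) / 2 +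
      Bs l (k + 1) (Function.update w k 2) / 4 = Bs l k w := by
  have h := fun c : Fin 3 => (Bs_summable hl (k + 1) (Function.update w k c)).hasSum
  have h3 := (((h 0).div_const 4).add ((h 1).div_const 2)).add ((h 2).div_const 4)
  have h4 : (fun j => (Pf l 0 (k + 1) (Function.update w k 0) j +
        Pf l 2 (k + 1) (Function.update w k 0) j) / 4 +
      (Pf l 0 (k + 1) (Function.update w k 1) j + Pf l 2 (k + 1) (Function.update w k 1) j) / 2 +
      (Pf l 0 (k + 1) (Function.update w k 2) j + Pf l 2 (k + 1) (Function.update w k 2) j) / 4) =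
      fun j => Pf l 0 k w j + Pf l 2 k w j := by
    funext j
    rw [← Pf_step l 0 (Or.inl rfl) k w j, ← Pf_step l 2 (Or.inr rfl) k w j]
    ring
  rw [h4] at h3
  exact h3.tsum_eq.symm

theorem Bs_ge_one {l : ℕ → ℕ} (hl : Summable (fun j => (1 / 4 : ℝ) ^ l j)) (τ : Fin 3)
    (hτ : τ = 0 ∨ τ = 2) (j : ℕ) (w : ℕ → Fin 3)
    (hw : ∀ i, j ≤ i → i < j + l j → w i = τ) : 1 ≤ Bs l (j + l j) w := by
  have h1 : Pf l τ (j + l j) w j = 1 := by
    unfold Pf
    apply Finset.prod_eq_one
    intro i hi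
    have hi' := Finset.mem_Ico.mp hi
    rw [if_pos hi'.2, if_pos (hw i hi'.1 hi'.2)]
  have h2 : Pf l 0 (j + l j) w j + Pf l 2 (j + l j) w j ≤ Bs l (j + l j) w :=
    (Bs_summable hl (j + l j) w).le_tsum j
      fun i _ => add_nonneg (Pf_nonneg l 0 _ w i) (Pf_nonneg l 2 _ w i)
  have h3 := Pf_nonneg l 0 (j + l j) w j
  have h4 := Pf_nonneg l 2 (j + l j) w j
  rcases hτ with rfl | rfl <;> linarith

/-- **Packet SEL.** -/
theorem gSel : GSel.{u} := by
  intro S al R d s0 l hal hd hstep hsum hsmall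
  set a0 : ℝ := al 0 s0 with ha0
  have ha0' : 0 ≤ a0 := hal 0 s0
  set μ : ℝ := 2 * (a0 + 1) with hμ
  have hμ0 : 0 < μ := by positivity
  obtain ⟨T, hT0, hP, hR⟩ := depChoice (S := S × (ℕ → Fin 3) × ℝ)
    (fun k t => 0 ≤ t.2.2 ∧
      al k t.1 + t.2.2 + μ * Bs l k t.2.1 ≤ a0 + 1 + μ / 4 - (1 / 2) ^ k)
    (fun k t t' => R k (t'.2.1 k) t.1 t'.1 ∧ (∀ i, i ≠ k → t'.2.1 i = t.2.1 i) ∧
      t'.2.2 = t.2.2 + d t.1 t'.1)
    (s0, (fun _ => 1), 0)
    (by
      refine ⟨le_rfl, ?_⟩
      have h1 : Bs l 0 (fun _ => 1) ≤ 1 / 4 := by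
        rw [Bs_zero]
        exact hsmall
      have h2 : μ * Bs l 0 (fun _ => 1) ≤ μ / 4 := by
        have := mul_le_mul_of_nonneg_left h1 hμ0.le
        linarith
      simp only [pow_zero, add_zero]
      linarith)
    (by
      rintro k ⟨s, w, D⟩ ⟨hD, hk⟩
      simp only at hD hk
      obtain ⟨A, hA, hA2⟩ := hstep k s ((1 / 2) ^ (k + 1)) (by positivity)
      have hB := Bs_step hsum k w
      have hex : ∃ i : Fin 3, A i + (1 / 2) ^ (k + 1) + D +
          μ * Bs l (k + 1) (Function.update w k i) ≤ a0 + 1 + μ / 4 - (1 / 2) ^ (k + 1) := by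
        by_contra hcon
        push Not at hcon
        have c0 := hcon 0
        have c1 := hcon 1
        have c2 := hcon 2
        have hp : ((1 : ℝ) / 2) ^ k = 2 * (1 / 2) ^ (k + 1) := by
          rw [pow_succ]
          ring
        have hB' : μ * Bs l (k + 1) (Function.update w k 0) / 4 +
            μ * Bs l (k + 1) (Function.update w k 1) / 2 +
            μ * Bs l (k + 1) (Function.update w k 2) / 4 = μ * Bs l k w := by
          rw [← hB]
          ring
        linarith
      obtain ⟨i, hi⟩ := hex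
      obtain ⟨s', hs', hs2⟩ := hA2 i
      refine ⟨(s', Function.update w k i, D + d s s'), ⟨?_, ?_⟩, ?_, ?_, ?_⟩
      · exact add_nonneg hD (hd s s')
      · simp only
        linarith
      · simp only [Function.update_self]
        exact hs'
      · intro m hm
        simp only
        rw [Function.update_of_ne hm]
      · rfl)
  have hletters : ∀ K i, i < K → (T K).2.1 i = (T (i + 1)).2.1 i := by
    intro K
    induction K with
    | zero =>
      intro i hi
      exact absurd hi (Nat.not_lt_zero i)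
    | succ K ih =>
      intro i hi
      rcases Nat.lt_succ_iff_lt_or_eq.mp hi with h | h
      · rw [(hR K).2.1 i (Nat.ne_of_lt h)]
        exact ih i h
      · rw [h]
  have hD : ∀ k, ∑ i ∈ range k, d (T i).1 (T (i + 1)).1 = (T k).2.2 := by
    intro k
    induction k with
    | zero => rw [Finset.sum_range_zero, hT0]
    | succ k ih => rw [Finset.sum_range_succ, ih, (hR k).2.2]
  have hBn : ∀ k, 0 ≤ μ * Bs l k (T k).2.1 := fun k => mul_nonneg hμ0.le (Bs_nonneg l k _)
  have hpow : ∀ k : ℕ, 0 < ((1 : ℝ) / 2) ^ k := fun k => by positivity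
  have hwin : ∀ (τ : Fin 3), (τ = 0 ∨ τ = 2) → ∀ j,
      ∃ k, j ≤ k ∧ k < j + l j ∧ (T (k + 1)).2.1 k ≠ τ := by
    intro τ hτ j
    by_contra hcon
    push Not at hcon
    have h1 : 1 ≤ Bs l (j + l j) (T (j + l j)).2.1 := by
      apply Bs_ge_one hsum τ hτ j
      intro i hi hi'
      rw [hletters (j + l j) i hi']
      exact hcon i hi hi'
    have h2 : μ * 1 ≤ μ * Bs l (j + l j) (T (j + l j)).2.1 :=
      mul_le_mul_of_nonneg_left h1 hμ0.le
    have h3 := hP (j + l j)
    have h4 := hal (j + l j) (T (j + l j)).1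
    have h5 := hpow (j + l j)
    linarith [h3.1, h3.2]
  refine ⟨fun k => (T k).1, fun k => (T (k + 1)).2.1 k, ?_, ?_, ?_, ?_, ?_⟩
  · simp only [hT0]
  · intro k
    exact (hR k).1
  · intro k
    have h3 := hP k
    have h5 := hpow k
    have h6 := hBn k
    simp only
    linarith [h3.1, h3.2]
  · intro k
    have h3 := hP k
    have h4 := hal k (T k).1
    have h5 := hpow k
    have h6 := hBn k
    simp only
    rw [hD k]
    linarith [h3.1, h3.2]
  · intro j
    exact ⟨hwin 0 (Or.inl rfl) j, hwin 2 (Or.inr rfl) j⟩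

end Pool.Agent.Helper25.Sq
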